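import Mathlib

set_option autoImplicit false

/-! Counting digit strings. -/

namespace Pool.Agent.V11294.LP

open Finset

/-- the digits -/
def dg (b n m : ℕ) : ℕ := n / b ^ m % b

lemma dg_lt {b : ℕ} (hb : 0 < b) (n m : ℕ) : dg b n m < b := Nat.mod_lt _ hb

lemma dg_zero_of_lt {b n k m : ℕ} (hb : 0 < b) (hn : n < b ^ k) (hm : k ≤ m) : dg b n m = 0 := by
  unfold dg
  rw [Nat.div_eq_of_lt]
  · simp
  · exact lt_of_lt_of_le hn (Nat.pow_le_pow_right hb hm)

/-- transfer between numbers and digit functions -/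
lemma card_transfer {b : ℕ} (hb : 0 < b) (k : ℕ) (Q : (Fin k → ℕ) → Prop) [DecidablePred Q] :
    ((range (b ^ k)).filter (fun n => Q (fun i => dg b n i))).card =
      ((univ : Finset (Fin k → Fin b)).filter (fun f => Q (fun i => (f i : ℕ)))).card := by
  have hinv : ∀ n, n < b ^ k →
      ((finFunctionFinEquiv (fun j : Fin k => (⟨dg b n j, dg_lt hb n j⟩ : Fin b)) : Fin (b ^ k)) : ℕ)
        = n := by
    intro n hn
    have h1 : (fun j : Fin k => (⟨dg b n j, dg_lt hb n j⟩ : Fin b)) =
        finFunctionFinEquiv.symm (⟨n, hn⟩ : Fin (b ^ k)) := by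
      funext j
      apply Fin.ext
      simp [dg, finFunctionFinEquiv]
    rw [h1, Equiv.apply_symm_apply]
  have hinv2 : ∀ f : Fin k → Fin b, ∀ j : Fin k,
      dg b ((finFunctionFinEquiv f : Fin (b ^ k)) : ℕ) j = (f j : ℕ) := by
    intro f j
    have h1 := congrFun (finFunctionFinEquiv.symm_apply_apply f) j
    have h2 := congrArg Fin.val h1
    rw [← h2]
    simp [dg, finFunctionFinEquiv]
  refine Finset.card_nbij' (fun n => fun j : Fin k => (⟨dg b n j, dg_lt hb n j⟩ : Fin b))
    (fun f => ((finFunctionFinEquiv f : Fin (b ^ k)) : ℕ)) ?_ ?_ ?_ ?_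
  · intro n hn
    rw [mem_coe, mem_filter, mem_range] at hn
    rw [mem_coe, mem_filter]
    exact ⟨mem_univ _, hn.2⟩
  · intro f hf
    rw [mem_coe, mem_filter] at hf
    rw [mem_coe, mem_filter, mem_range]
    refine ⟨Fin.is_lt _, ?_⟩
    have : (fun i : Fin k => dg b ((finFunctionFinEquiv f : Fin (b ^ k)) : ℕ) i) =
        fun i => (f i : ℕ) := funext fun i => hinv2 f i
    rw [this]
    exact hf.2
  · intro n hn
    rw [mem_coe, mem_filter, mem_range] at hn
    exact hinv n hn.1
  · intro f _
    funext j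
    apply Fin.ext
    exact hinv2 f j

/-- strings with few zeros in a window -/
lemma zeros_tail {b : ℕ} (hb : 1 ≤ b) (k r : ℕ) (W : Finset (Fin k)) :
    (((univ : Finset (Fin k → Fin b)).filter
      (fun f => (W.filter (fun i => (f i : ℕ) = 0)).card ≤ r)).card : ℝ) ≤
      2 ^ r * ((b : ℝ) ^ k * (1 - 1 / (2 * b)) ^ W.card) := by
  classical
  have hbR : (1 : ℝ) ≤ b := by exact_mod_cast hb
  set w : Fin k → Fin b → ℝ := fun i a => if i ∈ W ∧ (a : ℕ) = 0 then 1 / 2 else 1 with hw
  have h1 : (((univ : Finset (Fin k → Fin b)).filter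
      (fun f => (W.filter (fun i => (f i : ℕ) = 0)).card ≤ r)).card : ℝ) ≤
      ∑ f : Fin k → Fin b, 2 ^ r * ∏ i, w i (f i) := by
    rw [card_filter]
    push_cast
    refine sum_le_sum fun f _ => ?_
    have hprod : ∏ i, w i (f i) = (1 / 2) ^ (W.filter (fun i => (f i : ℕ) = 0)).card := by
      rw [hw]
      simp only
      rw [prod_ite, prod_const, prod_const_one, mul_one]
      congr 2
      ext i
      simp
    rw [hprod]
    split_ifs with h
    · have : (1 / 2 : ℝ) ^ r ≤ (1 / 2) ^ (W.filter (fun i => (f i : ℕ) = 0)).card :=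
        pow_le_pow_of_le_one (by norm_num) (by norm_num) h
      calc (1 : ℝ) = 2 ^ r * (1 / 2) ^ r := by
            rw [← mul_pow]; norm_num
        _ ≤ _ := mul_le_mul_of_nonneg_left this (by positivity)
    · positivity
  refine h1.trans ?_
  rw [← mul_sum]
  apply mul_le_mul_of_nonneg_left _ (by positivity)
  have h2 : ∑ f : Fin k → Fin b, ∏ i, w i (f i) = ∏ i, ∑ a, w i a := by
    rw [Finset.prod_univ_sum]
    simp
  rw [h2]
  have h3 : ∀ i, ∑ a, w i a = if i ∈ W then (b : ℝ) * (1 - 1 / (2 * b)) else b := by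
    intro i
    rw [hw]
    simp only
    split_ifs with hi
    · have : ∀ a : Fin b, (if i ∈ W ∧ (a : ℕ) = 0 then (1 / 2 : ℝ) else 1) =
          1 - if a = ⟨0, by omega⟩ then (1 / 2 : ℝ) else 0 := by
        intro a
        by_cases ha : a = ⟨0, by omega⟩
        · subst ha
          simp [hi]
          norm_num
        · have : (a : ℕ) ≠ 0 := fun h => ha (Fin.ext h)
          simp [ha, this]
      rw [sum_congr rfl fun a _ => this a, sum_sub_distrib, sum_ite_eq']
      simp
      field_simp
    · simp [hi]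
  rw [prod_congr rfl fun i _ => h3 i]
  rw [prod_ite, prod_const, prod_const, mul_pow]
  have hc1 : (univ.filter (fun i => i ∈ W)).card = W.card := by
    congr 1
    ext i; simp
  have hc2 : (univ.filter (fun i => i ∉ W)).card = k - W.card := by
    have h4 := card_filter_add_card_filter_not (s := (univ : Finset (Fin k))) (fun i => i ∈ W)
    rw [hc1] at h4
    simp at h4
    omega
  rw [hc1, hc2]
  have hWk : W.card ≤ k := by
    have := card_le_univ W
    simpa using this
  have h5 : (b : ℝ) ^ k = b ^ W.card * b ^ (k - W.card) := by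
    rw [← pow_add]; congr 1; omega
  rw [h5]
  apply le_of_eq
  ring

/-- strings vanishing on a set -/
lemma zeros_on {b : ℕ} (hb : 1 ≤ b) (k : ℕ) (T : Finset (Fin k)) :
    ((univ : Finset (Fin k → Fin b)).filter (fun f => ∀ i ∈ T, (f i : ℕ) = 0)).card * b ^ T.card
      = b ^ k := by
  classical
  have h1 : (univ : Finset (Fin k → Fin b)).filter (fun f => ∀ i ∈ T, (f i : ℕ) = 0) =
      Fintype.piFinset (fun i => if i ∈ T then {(⟨0, by omega⟩ : Fin b)} else univ) := by
    ext f
    rw [mem_filter, Fintype.mem_piFinset]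
    constructor
    · rintro ⟨_, h⟩ i
      split_ifs with hi
      · rw [mem_singleton]
        exact Fin.ext (h i hi)
      · exact mem_univ _
    · intro h
      refine ⟨mem_univ _, fun i hi => ?_⟩
      have := h i
      rw [if_pos hi, mem_singleton] at this
      rw [this]
  rw [h1, Fintype.card_piFinset]
  have h2 : ∀ i : Fin k, (if i ∈ T then {(⟨0, by omega⟩ : Fin b)} else (univ : Finset (Fin b))).card =
      if i ∈ T then 1 else b := by
    intro i
    split_ifs <;> simp
  rw [prod_congr rfl fun i _ => h2 i, prod_ite, prod_const_one, one_mul, prod_const]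
  have hc1 : (univ.filter (fun i => i ∈ T)).card = T.card := by
    congr 1
    ext i; simp
  have hc2 : (univ.filter (fun i => i ∉ T)).card + T.card = k := by
    have h4 := card_filter_add_card_filter_not (s := (univ : Finset (Fin k))) (fun i => i ∈ T)
    rw [hc1] at h4
    simp at h4
    omega
  rw [← pow_add, hc2]

/-- numbers version: few zeros in a window -/
lemma zeros_tail' {b : ℕ} (hb : 1 ≤ b) (k r : ℕ) (W : Finset ℕ) (hW : ∀ i ∈ W, i < k) :
    (((range (b ^ k)).filter (fun n => (W.filter (fun i => dg b n i = 0)).card ≤ r)).card : ℝ) ≤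
      2 ^ r * ((b : ℝ) ^ k * (1 - 1 / (2 * b)) ^ W.card) := by
  classical
  set V : Finset (Fin k) := univ.filter (fun i : Fin k => (i : ℕ) ∈ W) with hV
  have hVimg : V.image (fun i : Fin k => (i : ℕ)) = W := by
    ext i
    rw [mem_image]
    constructor
    · rintro ⟨j, hj, rfl⟩
      exact (mem_filter.1 hj).2
    · intro hi
      exact ⟨⟨i, hW i hi⟩, mem_filter.2 ⟨mem_univ _, hi⟩, rfl⟩
  have hinj : Function.Injective (fun i : Fin k => (i : ℕ)) := fun a b h => Fin.ext h
  have hVc : V.card = W.card := by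
    rw [← hVimg, card_image_of_injective _ hinj]
  have key : ∀ g : ℕ → ℕ, (W.filter (fun i => g i = 0)).card =
      (V.filter (fun i : Fin k => g i = 0)).card := by
    intro g
    rw [← card_image_of_injective (V.filter (fun i : Fin k => g i = 0)) hinj]
    congr 1
    ext i
    rw [mem_filter, mem_image]
    constructor
    · rintro ⟨h1, h2⟩
      exact ⟨⟨i, hW i h1⟩, mem_filter.2 ⟨mem_filter.2 ⟨mem_univ _, h1⟩, h2⟩, rfl⟩
    · rintro ⟨j, hj, rfl⟩
      rw [mem_filter] at hj
      exact ⟨(mem_filter.1 hj.1).2, hj.2⟩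
  have h1 := card_transfer (b := b) (by omega) k
    (fun f => (V.filter (fun i => f i = 0)).card ≤ r)
  have h2 : (range (b ^ k)).filter (fun n => (W.filter (fun i => dg b n i = 0)).card ≤ r) =
      (range (b ^ k)).filter (fun n => (V.filter (fun i : Fin k => dg b n i = 0)).card ≤ r) := by
    apply filter_congr
    intro n _
    rw [key (fun i => dg b n i)]
  rw [h2, h1, ← hVc]
  exact zeros_tail hb k r V

/-- numbers version: zeros on a set -/
lemma zeros_on' {b : ℕ} (hb : 1 ≤ b) (k : ℕ) (T : Finset ℕ) (hT : ∀ i ∈ T, i < k) :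
    ((range (b ^ k)).filter (fun n => ∀ i ∈ T, dg b n i = 0)).card * b ^ T.card = b ^ k := by
  classical
  set V : Finset (Fin k) := univ.filter (fun i : Fin k => (i : ℕ) ∈ T) with hV
  have hVimg : V.image (fun i : Fin k => (i : ℕ)) = T := by
    ext i
    rw [mem_image]
    constructor
    · rintro ⟨j, hj, rfl⟩
      exact (mem_filter.1 hj).2
    · intro hi
      exact ⟨⟨i, hT i hi⟩, mem_filter.2 ⟨mem_univ _, hi⟩, rfl⟩
  have hinj : Function.Injective (fun i : Fin k => (i : ℕ)) := fun a b h => Fin.ext h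
  have hVc : V.card = T.card := by
    rw [← hVimg, card_image_of_injective _ hinj]
  have h1 := card_transfer (b := b) (by omega) k (fun f => ∀ i ∈ V, f i = 0)
  have h2 : (range (b ^ k)).filter (fun n => ∀ i ∈ T, dg b n i = 0) =
      (range (b ^ k)).filter (fun n => ∀ i ∈ V, dg b n (i : ℕ) = 0) := by
    apply filter_congr
    intro n _
    constructor
    · intro h i hi
      exact h i (mem_filter.1 hi).2
    · intro h i hi
      exact h ⟨i, hT i hi⟩ (mem_filter.2 ⟨mem_univ _, hi⟩)
  rw [h2, h1, ← hVc]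
  exact zeros_on hb k V

end Pool.Agent.V11294.LP
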