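import Mathlib
import Pool.Agent.V11294.LP.Basic

set_option autoImplicit false

/-! Disjoint families and the two counting bounds. -/

namespace Pool.Agent.V11294.LP

open Finset

lemma greedy {conf : ℕ → Finset ℕ} {D : ℕ} (Z : Finset ℕ) (hself : ∀ m ∈ Z, m ∈ conf m)
    (hsymm : ∀ m ∈ Z, ∀ m' ∈ Z, m' ∈ conf m → m ∈ conf m') (hD : ∀ m ∈ Z, (conf m).card ≤ D) :
    ∃ S ⊆ Z, (∀ m ∈ S, ∀ m' ∈ S, m ≠ m' → m' ∉ conf m) ∧ Z.card ≤ D * S.card := by
  classical
  obtain ⟨Pd, hPd⟩ : ∃ Pd : Finset ℕ → Prop, ∀ S, Pd S ↔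
      (∀ m ∈ S, ∀ m' ∈ S, m ≠ m' → m' ∉ conf m) := ⟨_, fun _ => Iff.rfl⟩
  obtain ⟨S, hS, hmax⟩ := exists_max_image (Z.powerset.filter Pd) card
    ⟨∅, by simp [hPd]⟩
  rw [mem_filter, mem_powerset, hPd] at hS
  refine ⟨S, hS.1, hS.2, ?_⟩
  have hcov : Z ⊆ S.biUnion conf := by
    intro z hz
    by_contra hcon
    have hzS : z ∉ S := fun h => hcon (mem_biUnion.2 ⟨z, h, hself z hz⟩)
    have hnot : ∀ m ∈ S, z ∉ conf m := fun m hm h => hcon (mem_biUnion.2 ⟨m, hm, h⟩)
    have h1 : insert z S ∈ Z.powerset.filter Pd := by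
      rw [mem_filter, mem_powerset, hPd]
      refine ⟨insert_subset hz hS.1, ?_⟩
      intro m hm m' hm' hne
      rw [mem_insert] at hm hm'
      rcases hm with rfl | hm
      · rcases hm' with rfl | hm'
        · exact absurd rfl hne
        · intro h
          exact hnot m' hm' (hsymm m hz m' (hS.1 hm') h)
      · rcases hm' with rfl | hm'
        · exact hnot m hm
        · exact hS.2 m hm m' hm' hne
    have h2 := hmax _ h1
    rw [card_insert_of_notMem hzS] at h2
    omega
  calc Z.card ≤ (S.biUnion conf).card := card_le_card hcov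
    _ ≤ ∑ m ∈ S, (conf m).card := card_biUnion_le
    _ ≤ ∑ _m ∈ S, D := sum_le_sum fun m hm => hD m (hS.1 hm)
    _ = D * S.card := by rw [sum_const, smul_eq_mul, mul_comm]

lemma ybad {b : ℕ} (hb : 1 ≤ b) (k : ℕ) (A W : Finset ℕ) (hA : A.Nonempty)
    (hAW : ∀ m ∈ W, ∀ i ∈ A, i ≤ m ∧ m - i < k) (r j : ℕ) (hr : j * A.card ^ 2 ≤ r) :
    ((range (b ^ k)).filter
      (fun y => r ≤ (W.filter (fun m => ∀ i ∈ A, dg b y (m - i) = 0)).card)).card *
        b ^ (A.card * j) ≤ W.card.choose j * b ^ k := by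
  classical
  set T : ℕ → Finset ℕ := fun m => A.image (fun i => m - i) with hT
  obtain ⟨Pd, hPd⟩ : ∃ Pd : Finset ℕ → Prop, ∀ S, Pd S ↔
      (∀ m ∈ S, ∀ m' ∈ S, m ≠ m' → Disjoint (T m) (T m')) := ⟨_, fun _ => Iff.rfl⟩
  set G := (W.powersetCard j).filter Pd with hG
  have hcov : (range (b ^ k)).filter
      (fun y => r ≤ (W.filter (fun m => ∀ i ∈ A, dg b y (m - i) = 0)).card) ⊆
      G.biUnion (fun S => (range (b ^ k)).filter (fun y => ∀ i ∈ S.biUnion T, dg b y i = 0)) := by
    intro y hy
    rw [mem_filter] at hy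
    set Z := W.filter (fun m => ∀ i ∈ A, dg b y (m - i) = 0) with hZ
    set conf : ℕ → Finset ℕ := fun m => (A ×ˢ A).image (fun p => m + p.2 - p.1) with hconf
    have hZW : ∀ m ∈ Z, m ∈ W := fun m hm => (mem_filter.1 hm).1
    obtain ⟨i0, hi0⟩ := hA
    obtain ⟨S, hSZ, hSd, hSc⟩ := greedy (conf := conf) (D := A.card ^ 2) Z
      (by
        intro m hm
        exact mem_image.2 ⟨(i0, i0), mem_product.2 ⟨hi0, hi0⟩, by simp⟩)
      (by
        intro m hm m' hm' h
        obtain ⟨p, hp, hpe⟩ := mem_image.1 h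
        rw [mem_product] at hp
        have h1 := (hAW m (hZW m hm) p.1 hp.1).1
        have h2 := (hAW m' (hZW m' hm') p.2 hp.2).1
        refine mem_image.2 ⟨(p.2, p.1), mem_product.2 ⟨hp.2, hp.1⟩, ?_⟩
        simp only at hpe ⊢
        omega)
      (by
        intro m _
        refine card_image_le.trans ?_
        rw [card_product, sq])
    have hcard0 : 0 < A.card := card_pos.2 ⟨i0, hi0⟩
    have hj : j ≤ S.card := by
      have h1 : j * A.card ^ 2 ≤ A.card ^ 2 * S.card := hr.trans (hy.2.trans hSc)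
      have h2 : 0 < A.card ^ 2 := by positivity
      rw [mul_comm] at h1
      exact Nat.le_of_mul_le_mul_left h1 h2
    obtain ⟨S', hS'S, hS'c⟩ := exists_subset_card_eq hj
    rw [mem_biUnion]
    refine ⟨S', ?_, ?_⟩
    · rw [hG, mem_filter, mem_powersetCard, hPd]
      refine ⟨⟨fun m hm => hZW m (hSZ (hS'S hm)), hS'c⟩, ?_⟩
      intro m hm m' hm' hne
      rw [disjoint_left]
      intro x hx hx'
      rw [hT] at hx hx'
      obtain ⟨i, hi, hie⟩ := mem_image.1 hx
      obtain ⟨i', hi', hie'⟩ := mem_image.1 hx'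
      have h1 := (hAW m (hZW m (hSZ (hS'S hm))) i hi).1
      have h2 := (hAW m' (hZW m' (hSZ (hS'S hm'))) i' hi').1
      apply hSd m (hS'S hm) m' (hS'S hm') hne
      refine mem_image.2 ⟨(i, i'), mem_product.2 ⟨hi, hi'⟩, ?_⟩
      simp only at hie hie' ⊢
      omega
    · rw [mem_filter]
      refine ⟨hy.1, ?_⟩
      intro x hx
      rw [mem_biUnion] at hx
      obtain ⟨m, hm, hxm⟩ := hx
      obtain ⟨i, hi, rfl⟩ := mem_image.1 hxm
      exact (mem_filter.1 (hSZ (hS'S hm))).2 i hi
  have hone : ∀ S ∈ G, ((range (b ^ k)).filter (fun y => ∀ i ∈ S.biUnion T, dg b y i = 0)).card *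
      b ^ (A.card * j) = b ^ k := by
    intro S hS
    rw [hG, mem_filter, mem_powersetCard, hPd] at hS
    have hTk : ∀ i ∈ S.biUnion T, i < k := by
      intro x hx
      rw [mem_biUnion] at hx
      obtain ⟨m, hm, hxm⟩ := hx
      obtain ⟨i, hi, rfl⟩ := mem_image.1 hxm
      exact (hAW m (hS.1.1 hm) i hi).2
    have h1 := zeros_on' hb k (S.biUnion T) hTk
    have h2 : (S.biUnion T).card = A.card * j := by
      rw [card_biUnion (fun m hm m' hm' hne => hS.2 m hm m' hm' hne)]
      have h3 : ∀ m ∈ S, (T m).card = A.card := by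
        intro m hm
        rw [hT]
        apply card_image_of_injOn
        intro i hi i' hi' h
        have h4 := (hAW m (hS.1.1 hm) i hi).1
        have h5 := (hAW m (hS.1.1 hm) i' hi').1
        simp only at h
        omega
      rw [sum_congr rfl h3, sum_const, hS.1.2, smul_eq_mul, mul_comm]
    rw [h2] at h1
    exact h1
  calc _ ≤ (G.biUnion (fun S => (range (b ^ k)).filter
        (fun y => ∀ i ∈ S.biUnion T, dg b y i = 0))).card * b ^ (A.card * j) :=
        Nat.mul_le_mul_right _ (card_le_card hcov)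
    _ ≤ (∑ S ∈ G, ((range (b ^ k)).filter
        (fun y => ∀ i ∈ S.biUnion T, dg b y i = 0)).card) * b ^ (A.card * j) :=
        Nat.mul_le_mul_right _ card_biUnion_le
    _ = ∑ S ∈ G, b ^ k := by
        rw [sum_mul]
        exact sum_congr rfl hone
    _ = G.card * b ^ k := by rw [sum_const, smul_eq_mul]
    _ ≤ W.card.choose j * b ^ k := by
        apply Nat.mul_le_mul_right
        rw [← card_powersetCard]
        exact card_filter_le _ _

/-- avoiding isolated patterns on disjoint blocks -/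
lemma isolated {b : ℕ} (hb : 2 ≤ b) (k D : ℕ) (N : Fin k → Finset (Fin k)) (S : Finset (Fin k))
    (hself : ∀ m ∈ S, m ∈ N m) (hD : ∀ m ∈ S, (N m).card ≤ D)
    (hdisj : ∀ m ∈ S, ∀ m' ∈ S, m ≠ m' → Disjoint (N m) (N m')) :
    ((univ : Finset (Fin k → Fin b)).filter (fun f => ∀ m ∈ S,
      ¬ ((f m : ℕ) ≠ 0 ∧ ∀ i ∈ N m, i ≠ m → (f i : ℕ) = 0))).card * (b ^ D) ^ S.card ≤
      (b ^ D - 1) ^ S.card * b ^ k := by
  classical
  induction S using Finset.induction_on with
  | empty => simp
  | insert m S hmS ih =>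
    have ih' := ih (fun x hx => hself x (mem_insert_of_mem hx)) (fun x hx => hD x (mem_insert_of_mem hx))
      (fun x hx y hy => hdisj x (mem_insert_of_mem hx) y (mem_insert_of_mem hy))
    set E : Fin k → (Fin k → Fin b) → Prop := fun m f => (f m : ℕ) ≠ 0 ∧ ∀ i ∈ N m, i ≠ m → (f i : ℕ) = 0
      with hE
    set X := (univ : Finset (Fin k → Fin b)).filter (fun f => ∀ x ∈ S, ¬ E x f) with hX
    set Y := X.filter (fun f => E m f) with hY
    have hXY : (univ : Finset (Fin k → Fin b)).filter (fun f => ∀ x ∈ insert m S, ¬ E x f) =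
        X.filter (fun f => ¬ E m f) := by
      ext f
      simp only [hX, mem_filter, mem_univ, true_and, mem_insert, forall_eq_or_imp]
      tauto
    have hcardXY := card_filter_add_card_filter_not (s := X) (fun f => E m f)
    set φ : (Fin k → Fin b) → (Fin k → Fin b) := fun f i =>
      if i = m then ⟨1, by omega⟩ else if i ∈ N m then ⟨0, by omega⟩ else f i with hφ
    have hmaps : X.image φ ⊆ Y := by
      intro g hg
      obtain ⟨f, hf, rfl⟩ := mem_image.1 hg
      rw [hX, mem_filter] at hf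
      rw [hY, mem_filter, hX, mem_filter]
      refine ⟨⟨mem_univ _, ?_⟩, ?_⟩
      · intro x hx hEx
        apply hf.2 x hx
        have hxm : x ≠ m := fun h => hmS (h ▸ hx)
        have hd := hdisj x (mem_insert_of_mem hx) m (mem_insert_self _ _) hxm
        have hout : ∀ i ∈ N x, i ≠ m ∧ i ∉ N m := by
          intro i hi
          have h1 : i ∉ N m := disjoint_left.1 hd hi
          refine ⟨?_, h1⟩
          rintro rfl
          exact h1 (hself i (mem_insert_self _ _))
        have hval : ∀ i ∈ N x, φ f i = f i := by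
          intro i hi
          obtain ⟨h1, h2⟩ := hout i hi
          simp only [hφ, if_neg h1, if_neg h2]
        refine ⟨?_, ?_⟩
        · have h1 := hEx.1
          rw [hval x (hself x (mem_insert_of_mem hx))] at h1
          exact h1
        · intro i hi hix
          have h1 := hEx.2 i hi hix
          rw [hval i hi] at h1
          exact h1
      · refine ⟨?_, ?_⟩
        · simp [hφ]
        · intro i hi him
          simp [hφ, him, hi]
    have hfib : ∀ g ∈ X.image φ, (X.filter (fun f => φ f = g)).card ≤ b ^ D := by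
      intro g _
      have h1 : (X.filter (fun f => φ f = g)).card ≤
          (univ : Finset (N m → Fin b)).card := by
        apply card_le_card_of_injOn (fun f => fun i : N m => f i)
        · intro f _; exact mem_coe.2 (mem_univ _)
        · intro f hf f' hf' h
          rw [mem_coe, mem_filter] at hf hf'
          funext i
          by_cases hi : i ∈ N m
          · exact congrFun h ⟨i, hi⟩
          · have him : i ≠ m := by
              rintro rfl
              exact hi (hself i (mem_insert_self _ _))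
            have h2 := congrFun (hf.2.trans hf'.2.symm) i
            simp only [hφ, if_neg him, if_neg hi] at h2
            exact h2
      refine h1.trans ?_
      rw [card_univ, Fintype.card_fun, Fintype.card_fin, Fintype.card_coe]
      exact Nat.pow_le_pow_right (by omega) (hD m (mem_insert_self _ _))
    have hXle : X.card ≤ b ^ D * Y.card :=
      (card_le_mul_card_image X (b ^ D) hfib).trans (Nat.mul_le_mul_left _ (card_le_card hmaps))
    rw [hXY, card_insert_of_notMem hmS]
    have hbD : 1 ≤ b ^ D := Nat.one_le_pow _ _ (by omega)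
    have h3 : (X.filter (fun f => ¬ E m f)).card * b ^ D ≤ (b ^ D - 1) * X.card := by
      have h4 : X.card = Y.card + (X.filter (fun f => ¬ E m f)).card := hcardXY.symm
      obtain ⟨c, hc⟩ : ∃ c, b ^ D = c + 1 := ⟨b ^ D - 1, by omega⟩
      rw [hc] at hXle ⊢
      rw [Nat.add_sub_cancel]
      nlinarith
    calc (X.filter (fun f => ¬ E m f)).card * (b ^ D) ^ (S.card + 1)
        = ((X.filter (fun f => ¬ E m f)).card * b ^ D) * (b ^ D) ^ S.card := by rw [pow_succ]; ring
      _ ≤ ((b ^ D - 1) * X.card) * (b ^ D) ^ S.card := Nat.mul_le_mul_right _ h3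
      _ = (b ^ D - 1) * (X.card * (b ^ D) ^ S.card) := by ring
      _ ≤ (b ^ D - 1) * ((b ^ D - 1) ^ S.card * b ^ k) := Nat.mul_le_mul_left _ ih'
      _ = (b ^ D - 1) ^ (S.card + 1) * b ^ k := by rw [pow_succ]; ring

end Pool.Agent.V11294.LP
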