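import Mathlib
import Pool.Agent.V11294.LP.Dis

set_option autoImplicit false

/-! The bounds for the exceptional sets. -/

namespace Pool.Agent.V11294.LP

open Finset

lemma dg_ext {b : ℕ} (hb : 2 ≤ b) : ∀ k n n' : ℕ, n < b ^ k → n' < b ^ k →
    (∀ m, dg b n m = dg b n' m) → n = n'
  | 0, n, n', h1, h2, _ => by
    rw [pow_zero] at h1 h2
    omega
  | k + 1, n, n', h1, h2, h => by
    have h0 := h 0
    simp only [dg, pow_zero, Nat.div_one] at h0
    have h3 : n / b = n' / b := by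
      apply dg_ext hb k
      · apply Nat.div_lt_of_lt_mul
        rw [mul_comm, ← pow_succ]; exact h1
      · apply Nat.div_lt_of_lt_mul
        rw [mul_comm, ← pow_succ]; exact h2
      · intro m
        have := h (m + 1)
        unfold dg at this ⊢
        rw [Nat.div_div_eq_div_mul, Nat.div_div_eq_div_mul, mul_comm b, ← pow_succ]
        exact this
    rw [← Nat.div_add_mod n b, ← Nat.div_add_mod n' b, h0, h3]

/-- the digits of a product -/
def IsMul (b n x y : ℕ) : Prop :=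
  ∀ m : ℕ, dg b n m = (range (m + 1)).sup (fun i => min (dg b x i) (dg b y (m - i)))

lemma IsMul.ge {b n x y : ℕ} (h : IsMul b n x y) {m i : ℕ} (hi : i ≤ m) :
    min (dg b x i) (dg b y (m - i)) ≤ dg b n m := by
  rw [h m]
  exact le_sup (f := fun i => min (dg b x i) (dg b y (m - i))) (mem_range.2 (by omega))

lemma IsMul.exists {b n x y : ℕ} (h : IsMul b n x y) {m : ℕ} (hm : dg b n m ≠ 0) :
    ∃ i ≤ m, dg b x i ≠ 0 ∧ dg b y (m - i) ≠ 0 := by
  rw [h m] at hm
  by_contra hcon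
  push Not at hcon
  apply hm
  rw [← Nat.bot_eq_zero, Finset.sup_eq_bot_iff]
  intro i hi
  rw [mem_range] at hi
  rw [Nat.bot_eq_zero]
  by_cases h1 : dg b x i = 0
  · simp [h1]
  · have := hcon i (by omega) h1
    simp [this]

/-- numbers whose support is a union of translates of a small set -/
lemma small_support {b : ℕ} (hb : 2 ≤ b) (k : ℕ) (A : Finset ℕ) (hA : A.Nonempty) :
    ∃ s, k ≤ A.card ^ 4 * s ∧
    ((range (b ^ k)).filter (fun n => ∀ m < k, dg b n m ≠ 0 → ∃ m' < k, m' ≠ m ∧ dg b n m' ≠ 0 ∧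
      ∃ a ∈ A, ∃ a' ∈ A, m + a' = m' + a)).card * (b ^ (A.card ^ 2)) ^ s ≤
      (b ^ (A.card ^ 2) - 1) ^ s * b ^ k := by
  classical
  obtain ⟨a0, ha0⟩ := hA
  set conf : ℕ → Finset ℕ := fun m => (range k).filter (fun m' =>
    ∃ a1 ∈ A, ∃ a2 ∈ A, ∃ a3 ∈ A, ∃ a4 ∈ A, m + a1 + a2 = m' + a3 + a4) with hconf
  obtain ⟨S, hSZ, hSd, hSc⟩ := greedy (conf := conf) (D := A.card ^ 4) (range k)
    (by
      intro m hm
      rw [hconf]
      exact mem_filter.2 ⟨hm, a0, ha0, a0, ha0, a0, ha0, a0, ha0, rfl⟩)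
    (by
      intro m hm m' hm' h
      rw [hconf] at h ⊢
      obtain ⟨_, a1, h1, a2, h2, a3, h3, a4, h4, h5⟩ := mem_filter.1 h
      exact mem_filter.2 ⟨hm, a3, h3, a4, h4, a1, h1, a2, h2, h5.symm⟩)
    (by
      intro m _
      have hsub : conf m ⊆ (A ×ˢ (A ×ˢ (A ×ˢ A))).image
          (fun p => m + p.1 + p.2.1 - p.2.2.1 - p.2.2.2) := by
        intro m' h
        rw [hconf] at h
        obtain ⟨_, a1, h1, a2, h2, a3, h3, a4, h4, h5⟩ := mem_filter.1 h
        refine mem_image.2 ⟨(a1, a2, a3, a4), ?_, ?_⟩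
        · simp only [mem_product]
          exact ⟨h1, h2, h3, h4⟩
        · simp only
          omega
      refine (card_le_card hsub).trans (card_image_le.trans ?_)
      simp only [card_product]
      apply le_of_eq
      ring)
  rw [card_range] at hSc
  refine ⟨S.card, hSc, ?_⟩
  set N : Fin k → Finset (Fin k) := fun m => univ.filter (fun m' : Fin k =>
    ∃ a ∈ A, ∃ a' ∈ A, (m : ℕ) + a' = m' + a) with hN
  set S' : Finset (Fin k) := univ.filter (fun i : Fin k => (i : ℕ) ∈ S) with hS'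
  have hinj : Function.Injective (fun i : Fin k => (i : ℕ)) := fun a b h => Fin.ext h
  have hS'c : S'.card = S.card := by
    rw [← card_image_of_injective S' hinj]
    congr 1
    ext i
    rw [mem_image]
    constructor
    · rintro ⟨j, hj, rfl⟩
      exact (mem_filter.1 hj).2
    · intro hi
      exact ⟨⟨i, mem_range.1 (hSZ hi)⟩, mem_filter.2 ⟨mem_univ _, hi⟩, rfl⟩
  have hiso := isolated hb k (A.card ^ 2) N S'
    (by
      intro m _
      exact mem_filter.2 ⟨mem_univ _, a0, ha0, a0, ha0, rfl⟩)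
    (by
      intro m _
      have h1 : (N m).card = ((N m).image (fun i : Fin k => (i : ℕ))).card :=
        (card_image_of_injective _ hinj).symm
      rw [h1]
      have hsub : (N m).image (fun i : Fin k => (i : ℕ)) ⊆
          (A ×ˢ A).image (fun p => (m : ℕ) + p.1 - p.2) := by
        intro x hx
        obtain ⟨j, hj, rfl⟩ := mem_image.1 hx
        obtain ⟨_, a, ha, a', ha', h2⟩ := mem_filter.1 hj
        refine mem_image.2 ⟨(a', a), mem_product.2 ⟨ha', ha⟩, ?_⟩
        simp only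
        omega
      refine (card_le_card hsub).trans (card_image_le.trans ?_)
      rw [card_product, sq])
    (by
      intro m hm m' hm' hne
      rw [disjoint_left]
      intro x hx hx'
      obtain ⟨_, a, ha, a', ha', h2⟩ := mem_filter.1 hx
      obtain ⟨_, a3, ha3, a4, ha4, h3⟩ := mem_filter.1 hx'
      have hmS := (mem_filter.1 hm).2
      have hmS' := (mem_filter.1 hm').2
      have hne' : (m : ℕ) ≠ m' := fun h => hne (Fin.ext h)
      apply hSd m hmS m' hmS' hne'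
      exact mem_filter.2 ⟨mem_range.2 m'.2, a', ha', a3, ha3, a4, ha4, a, ha, by omega⟩)
  have htr := card_transfer (b := b) (by omega) k (fun f => ∀ m ∈ S',
      ¬ (f m ≠ 0 ∧ ∀ i ∈ N m, i ≠ m → f i = 0))
  rw [hS'c] at hiso
  refine le_trans (Nat.mul_le_mul_right _ ?_) hiso
  rw [← htr]
  apply card_le_card
  intro n hn
  rw [mem_filter] at hn ⊢
  refine ⟨hn.1, ?_⟩
  rintro m hm ⟨h1, h2⟩
  obtain ⟨m', hm'k, hm'm, hd, a, ha, a', ha', h3⟩ := hn.2 m m.2 h1
  apply hd
  apply h2 ⟨m', hm'k⟩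
  · exact mem_filter.2 ⟨mem_univ _, a, ha, a', ha', h3⟩
  · intro h
    apply hm'm
    rw [← h]

/-- no digit equal to `b - 1` -/
lemma no_top {b : ℕ} (hb : 1 ≤ b) (k : ℕ) :
    ((range (b ^ k)).filter (fun n => ∀ m < k, dg b n m ≠ b - 1)).card ≤ (b - 1) ^ k := by
  classical
  have h1 := card_transfer (b := b) (by omega) k (fun f => ∀ m, f m ≠ b - 1)
  have h2 : (range (b ^ k)).filter (fun n => ∀ m < k, dg b n m ≠ b - 1) =
      (range (b ^ k)).filter (fun n => ∀ m : Fin k, dg b n m ≠ b - 1) := by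
    apply filter_congr
    intro n _
    constructor
    · intro h m; exact h m m.2
    · intro h m hm; exact h ⟨m, hm⟩
  rw [h2, h1]
  have h3 : (univ : Finset (Fin k → Fin b)).filter (fun f => ∀ i, (f i : ℕ) ≠ b - 1) ⊆
      Fintype.piFinset (fun _ : Fin k => univ.erase (⟨b - 1, by omega⟩ : Fin b)) := by
    intro f hf
    rw [mem_filter] at hf
    rw [Fintype.mem_piFinset]
    intro i
    rw [mem_erase]
    refine ⟨?_, mem_univ _⟩
    intro h
    apply hf.2 i
    rw [h]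
  refine (card_le_card h3).trans ?_
  rw [Fintype.card_piFinset]
  simp [card_erase_of_mem]

/-- windows -/
def Lw (k s : ℕ) : Finset ℕ := Icc (s / 2) (k - 1 - s)
def Uw (k s : ℕ) : Finset ℕ := Icc s (k - 1 - s + s / 2)

lemma Lw_card {k s : ℕ} (hs : 1 ≤ s) (hsk : 2 * s ≤ k - 1) : k / 5 ≤ (Lw k s).card := by
  rw [Lw, Nat.card_Icc]; omega

lemma Uw_card {k s : ℕ} (hs : 1 ≤ s) (hsk : 2 * s ≤ k - 1) : k / 5 ≤ (Uw k s).card := by
  rw [Uw, Nat.card_Icc]; omega

lemma Lw_lt {k s : ℕ} (hs : 1 ≤ s) (hsk : 2 * s ≤ k - 1) : ∀ m ∈ Lw k s, m < k := by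
  intro m hm; rw [Lw, mem_Icc] at hm; omega

lemma Uw_lt {k s : ℕ} (hs : 1 ≤ s) (hsk : 2 * s ≤ k - 1) : ∀ m ∈ Uw k s, m < k := by
  intro m hm; rw [Uw, mem_Icc] at hm; omega

/-- strings with atypically few zeros in a window -/
def Few (b k : ℕ) (W : Finset ℕ) : Finset ℕ :=
  (range (b ^ k)).filter (fun n => (W.filter (fun i => dg b n i = 0)).card ≤ W.card / (2 * b))

lemma few_bound {b : ℕ} (hb : 2 ≤ b) (k : ℕ) (W : Finset ℕ) (hW : ∀ i ∈ W, i < k)
    (hWk : k / 5 ≤ W.card) :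
    ((Few b k W).card : ℝ) ≤ b ^ k * (1 - 1 / (4 * (b : ℝ) ^ 2)) ^ (k / 5) := by
  have hbR : (2 : ℝ) ≤ b := by exact_mod_cast hb
  have h1 := zeros_tail' (b := b) (by omega) k (W.card / (2 * b)) W hW
  refine h1.trans ?_
  have h2 : (2 : ℝ) ^ (W.card / (2 * b)) ≤ (1 + 1 / (2 * b)) ^ W.card := by
    have h3 : (2 : ℝ) ≤ (1 + 1 / (2 * b)) ^ (2 * b) := by
      have := one_add_mul_le_pow (a := 1 / (2 * (b : ℝ))) (by
        have : 0 ≤ 1 / (2 * (b : ℝ)) := by positivity
        linarith) (2 * b)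
      refine le_trans (le_of_eq ?_) this
      push_cast
      field_simp
      norm_num
    calc (2 : ℝ) ^ (W.card / (2 * b)) ≤ ((1 + 1 / (2 * b)) ^ (2 * b)) ^ (W.card / (2 * b)) := by
          gcongr
      _ = (1 + 1 / (2 * b)) ^ (2 * b * (W.card / (2 * b))) := by rw [← pow_mul]
      _ ≤ (1 + 1 / (2 * (b : ℝ))) ^ W.card := by
          apply pow_le_pow_right₀
          · have : 0 ≤ 1 / (2 * (b : ℝ)) := by positivity
            linarith
          · exact Nat.mul_div_le _ _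
  have hb2 : 0 ≤ 1 - 1 / (2 * (b : ℝ)) := by
    rw [sub_nonneg, div_le_one (by positivity)]; linarith
  have hb4 : 0 ≤ 1 - 1 / (4 * (b : ℝ) ^ 2) := by
    rw [sub_nonneg, div_le_one (by positivity)]; nlinarith
  calc (2 : ℝ) ^ (W.card / (2 * b)) * (b ^ k * (1 - 1 / (2 * b)) ^ W.card)
      ≤ (1 + 1 / (2 * b)) ^ W.card * (b ^ k * (1 - 1 / (2 * b)) ^ W.card) := by gcongr
    _ = b ^ k * ((1 + 1 / (2 * b)) * (1 - 1 / (2 * b))) ^ W.card := by rw [mul_pow]; ring
    _ = b ^ k * (1 - 1 / (4 * (b : ℝ) ^ 2)) ^ W.card := by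
        congr 2
        field_simp
        ring
    _ ≤ _ := by
        apply mul_le_mul_of_nonneg_left _ (by positivity)
        apply pow_le_pow_of_le_one hb4 _ hWk
        have : 0 ≤ 1 / (4 * (b : ℝ) ^ 2) := by positivity
        linarith

/-- the binomial coefficient is beaten -/
lemma choose_bound {b w j : ℕ} (hb : 2 ≤ b) (hw : w ≤ 1024 * b * j) :
    (w.choose j : ℝ) ≤ (1 / 2) ^ j * (b : ℝ) ^ (16 * j) := by
  rcases Nat.eq_zero_or_pos j with rfl | hj
  · simp
  have hbR : (2 : ℝ) ≤ b := by exact_mod_cast hb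
  have hjR : (0 : ℝ) < j := by exact_mod_cast hj
  have h1 : (w.choose j : ℝ) ≤ (w : ℝ) ^ j / (j.factorial : ℝ) := Nat.choose_le_pow_div j w
  have h2 : (j : ℝ) ^ j / (j.factorial : ℝ) ≤ Real.exp j := Real.pow_div_factorial_le_exp _ hjR.le j
  have hf : (0 : ℝ) < (j.factorial : ℝ) := by exact_mod_cast j.factorial_pos
  have h3 : (w : ℝ) ^ j ≤ (1024 * b * j) ^ j := by
    have : (w : ℝ) ≤ 1024 * b * j := by exact_mod_cast hw
    gcongr
  have he : Real.exp j = Real.exp 1 ^ j := by rw [← Real.exp_nat_mul]; congr 1; ring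
  have he1 : Real.exp 1 ≤ 3 := by linarith [Real.exp_one_lt_d9]
  calc (w.choose j : ℝ) ≤ (w : ℝ) ^ j / (j.factorial : ℝ) := h1
    _ ≤ (1024 * b * j) ^ j / (j.factorial : ℝ) := by gcongr
    _ = (1024 * b) ^ j * (j ^ j / (j.factorial : ℝ)) := by rw [mul_pow]; ring
    _ ≤ (1024 * b) ^ j * Real.exp j := by gcongr
    _ = (1024 * b * Real.exp 1) ^ j := by rw [he, ← mul_pow]
    _ ≤ (1 / 2 * b ^ 16) ^ j := by
        apply pow_le_pow_left₀ (by positivity)
        have h4 : (2 : ℝ) ^ 15 ≤ b ^ 15 := by gcongr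
        have h5 : (b : ℝ) ^ 16 = b * b ^ 15 := by ring
        rw [h5]
        have h6 : 1024 * b * Real.exp 1 ≤ 1024 * b * 3 := by gcongr
        have h7 : (1024 : ℝ) * 3 ≤ 1 / 2 * 2 ^ 15 := by norm_num
        nlinarith
    _ = (1 / 2) ^ j * (b : ℝ) ^ (16 * j) := by rw [mul_pow, ← pow_mul]

end Pool.Agent.V11294.LP
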