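import Mathlib
import Pool.Agent.V11294.LP.Bounds

set_option autoImplicit false

/-! Covering the composite strings. -/

namespace Pool.Agent.V11294.LP

open Finset

/-- the support of a string -/
def supp (b s x : ℕ) : Finset ℕ := (range (s + 1)).filter (fun i => dg b x i ≠ 0)

open Classical in
/-- typical products with a factor of large support -/
noncomputable def T3 (b k s : ℕ) : Finset ℕ :=
  (range (b ^ k)).filter (fun n => ∃ x y, x < b ^ (s + 1) ∧ y < b ^ (k - s) ∧
    32 ≤ (supp b s x).card ∧ IsMul b n x y ∧ n ∉ Few b k (Lw k s) ∧ n ∉ Few b k (Uw k s))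

lemma choose_window {b k s x : ℕ} (hs : 1 ≤ s) (hsk : 2 * s ≤ k - 1)
    (hx : 32 ≤ (supp b s x).card) : ∃ A W : Finset ℕ, A.card = 16 ∧ A ⊆ supp b s x ∧
      (W = Lw k s ∨ W = Uw k s) ∧ ∀ m ∈ W, ∀ i ∈ A, i ≤ m ∧ m - i < k - s := by
  classical
  have hsplit := card_filter_add_card_filter_not (s := supp b s x) (fun i => i ≤ s / 2)
  by_cases h : 16 ≤ ((supp b s x).filter (fun i => i ≤ s / 2)).card
  · obtain ⟨A, hA, hAc⟩ := exists_subset_card_eq h
    refine ⟨A, Lw k s, hAc, fun i hi => (mem_filter.1 (hA hi)).1, Or.inl rfl, ?_⟩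
    intro m hm i hi
    have h1 := (mem_filter.1 (hA hi)).2
    rw [Lw, mem_Icc] at hm
    omega
  · have h' : 16 ≤ ((supp b s x).filter (fun i => ¬ i ≤ s / 2)).card := by omega
    obtain ⟨A, hA, hAc⟩ := exists_subset_card_eq h'
    refine ⟨A, Uw k s, hAc, fun i hi => (mem_filter.1 (hA hi)).1, Or.inr rfl, ?_⟩
    intro m hm i hi
    have h1 := mem_filter.1 (hA hi)
    have h2 := h1.1
    rw [supp, mem_filter, mem_range] at h2
    rw [Uw, mem_Icc] at hm
    omega

lemma T3_bound {b k s : ℕ} (hb : 2 ≤ b) (hs : 1 ≤ s) (hsk : 2 * s ≤ k - 1) :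
    ((T3 b k s).card : ℝ) ≤ b ^ (k + 1) * (1 / 2) ^ (k / (2560 * b)) := by
  classical
  have hbR : (2 : ℝ) ≤ b := by exact_mod_cast hb
  have hch : ∀ x : ℕ, ∃ A W : Finset ℕ, 32 ≤ (supp b s x).card → (A.card = 16 ∧ A ⊆ supp b s x ∧
      (W = Lw k s ∨ W = Uw k s) ∧ ∀ m ∈ W, ∀ i ∈ A, i ≤ m ∧ m - i < k - s) := by
    intro x
    by_cases hx : 32 ≤ (supp b s x).card
    · obtain ⟨A, W, h⟩ := choose_window hs hsk hx
      exact ⟨A, W, fun _ => h⟩
    · exact ⟨∅, ∅, fun h => absurd h hx⟩
  choose A W hAW using hch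
  set Yb : ℕ → Finset ℕ := fun x => if 32 ≤ (supp b s x).card then
    (range (b ^ (k - s))).filter (fun y => (W x).card / (2 * b) + 1 ≤
      ((W x).filter (fun m => ∀ i ∈ A x, dg b y (m - i) = 0)).card) else ∅ with hYb
  have hYbc : ∀ x, ((Yb x).card : ℝ) ≤ b ^ (k - s) * (1 / 2) ^ (k / (2560 * b)) := by
    intro x
    rw [hYb]
    simp only
    split_ifs with hx
    · obtain ⟨hA16, hAs, hWW, hAW'⟩ := hAW x hx
      have hWk : k / 5 ≤ (W x).card := by
        rcases hWW with h | h
        · rw [h]; exact Lw_card hs hsk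
        · rw [h]; exact Uw_card hs hsk
      set r := (W x).card / (2 * b) + 1 with hr
      set j := r / 256 with hj
      have hAne : (A x).Nonempty := by
        rw [← card_pos, hA16]; norm_num
      have h1 := ybad (b := b) (by omega) (k - s) (A x) (W x) hAne hAW' r j (by
        rw [hA16, hj]
        have := Nat.div_mul_le_self r 256
        norm_num
        exact this)
      rw [hA16] at h1
      have h2 : (((W x).card).choose j : ℝ) ≤ (1 / 2) ^ j * (b : ℝ) ^ (16 * j) := by
        rcases Nat.eq_zero_or_pos j with h0 | h0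
        · rw [h0]; simp
        · apply choose_bound hb
          have h3 : (W x).card < 2 * b * r := by
            rw [hr]
            have := Nat.lt_mul_div_succ (W x).card (show 0 < 2 * b by omega)
            exact this
          have h4 : r ≤ 512 * j := by omega
          calc (W x).card ≤ 2 * b * r := h3.le
            _ ≤ 2 * b * (512 * j) := Nat.mul_le_mul_left _ h4
            _ = 1024 * b * j := by ring
      have h3 : (((range (b ^ (k - s))).filter (fun y => r ≤
          ((W x).filter (fun m => ∀ i ∈ A x, dg b y (m - i) = 0)).card)).card : ℝ) *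
          (b : ℝ) ^ (16 * j) ≤ ((1 / 2) ^ j * (b : ℝ) ^ (k - s)) * (b : ℝ) ^ (16 * j) := by
        have h5 : (((range (b ^ (k - s))).filter (fun y => r ≤
          ((W x).filter (fun m => ∀ i ∈ A x, dg b y (m - i) = 0)).card)).card : ℝ) *
          (b : ℝ) ^ (16 * j) ≤ (((W x).card).choose j : ℝ) * (b : ℝ) ^ (k - s) := by
          exact_mod_cast h1
        refine h5.trans ?_
        calc (((W x).card).choose j : ℝ) * (b : ℝ) ^ (k - s)
            ≤ ((1 / 2) ^ j * (b : ℝ) ^ (16 * j)) * (b : ℝ) ^ (k - s) := by gcongr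
          _ = _ := by ring
      have h6 := le_of_mul_le_mul_right h3 (by positivity)
      refine h6.trans ?_
      rw [mul_comm]
      apply mul_le_mul_of_nonneg_left _ (by positivity)
      apply pow_le_pow_of_le_one (by norm_num) (by norm_num)
      -- k / (2560 b) ≤ j
      have h7 : k / (2560 * b) = k / 5 / (2 * b) / 256 := by
        rw [Nat.div_div_eq_div_mul, Nat.div_div_eq_div_mul]
        congr 1
        ring
      rw [h7, hj, hr]
      apply Nat.div_le_div_right
      exact (Nat.div_le_div_right hWk).trans (Nat.le_succ _)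
    · simp
  have hT : (T3 b k s).card ≤ ((range (b ^ (s + 1))).biUnion
      (fun x => (Yb x).image (fun y => (x, y)))).card := by
    have hex : ∀ n ∈ T3 b k s, ∃ p : ℕ × ℕ, IsMul b n p.1 p.2 ∧ p ∈ ((range (b ^ (s + 1))).biUnion
      (fun x => (Yb x).image (fun y => (x, y)))) := by
      intro n hn
      rw [T3, mem_filter, mem_range] at hn
      obtain ⟨_, x, y, hx, hy, hsup, hmul, hL, hU⟩ := hn
      refine ⟨(x, y), hmul, ?_⟩
      rw [mem_biUnion]
      refine ⟨x, mem_range.2 hx, mem_image.2 ⟨y, ?_, rfl⟩⟩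
      rw [hYb]
      simp only
      rw [if_pos hsup, mem_filter, mem_range]
      refine ⟨hy, ?_⟩
      obtain ⟨hA16, hAs, hWW, hAW'⟩ := hAW x hsup
      have hnot : ¬ (((W x).filter (fun i => dg b n i = 0)).card ≤ (W x).card / (2 * b)) := by
        rcases hWW with h | h
        · rw [h]
          intro hc
          exact hL (mem_filter.2 ⟨mem_range.2 ‹_›, hc⟩)
        · rw [h]
          intro hc
          exact hU (mem_filter.2 ⟨mem_range.2 ‹_›, hc⟩)
      refine le_trans (not_le.1 hnot) (card_le_card ?_)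
      intro m hm
      rw [mem_filter] at hm ⊢
      refine ⟨hm.1, ?_⟩
      intro i hi
      have h1 := hmul.ge (hAW' m hm.1 i hi).1
      rw [hm.2] at h1
      have h2 := (mem_filter.1 (hAs hi)).2
      have h3 : min (dg b x i) (dg b y (m - i)) = 0 := by omega
      rcases Nat.min_eq_zero_iff.1 h3 with h | h
      · exact absurd h h2
      · exact h
    choose! g hg1 hg2 using hex
    apply card_le_card_of_injOn g
    · intro n hn; exact mem_coe.2 (hg2 n hn)
    · intro n hn n' hn' h
      have h1 := hg1 n hn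
      have h2 := hg1 n' hn'
      rw [← h] at h2
      have hn1 := (mem_filter.1 hn).1
      have hn2 := (mem_filter.1 hn').1
      rw [mem_range] at hn1 hn2
      apply dg_ext hb k n n' hn1 hn2
      intro m
      rw [h1 m, h2 m]
  have hT' : ((T3 b k s).card : ℝ) ≤ ∑ x ∈ range (b ^ (s + 1)), ((Yb x).card : ℝ) := by
    have : (T3 b k s).card ≤ ∑ x ∈ range (b ^ (s + 1)), (Yb x).card := by
      refine hT.trans (card_biUnion_le.trans (sum_le_sum fun x _ => card_image_le))
    exact_mod_cast this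
  refine hT'.trans ((sum_le_sum fun x _ => hYbc x).trans ?_)
  rw [sum_const, card_range, nsmul_eq_mul, ← mul_assoc]
  apply mul_le_mul_of_nonneg_right _ (by positivity)
  push_cast
  rw [← pow_add]
  apply le_of_eq
  congr 1
  omega

/-- strings whose support is a union of translates of a set -/
def SS (b k : ℕ) (A : Finset ℕ) : Finset ℕ :=
  (range (b ^ k)).filter (fun n => ∀ m < k, dg b n m ≠ 0 → ∃ m' < k, m' ≠ m ∧ dg b n m' ≠ 0 ∧
      ∃ a ∈ A, ∃ a' ∈ A, m + a' = m' + a)

def SA (k : ℕ) : Finset (Finset ℕ) :=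
  (range k).powerset.filter (fun A => 2 ≤ A.card ∧ A.card ≤ 31)

lemma SS_bound {b k : ℕ} (hb : 2 ≤ b) {A : Finset ℕ} (hA : A ∈ SA k) :
    ((SS b k A).card : ℝ) ≤ b ^ k * (1 - 1 / (b : ℝ) ^ 961) ^ (k / 31 ^ 4) := by
  rw [SA, mem_filter] at hA
  have hne : A.Nonempty := by rw [← card_pos]; omega
  obtain ⟨s, hs, hc⟩ := small_support hb k A hne
  have hbR : (2 : ℝ) ≤ b := by exact_mod_cast hb
  set D := A.card ^ 2 with hD
  have hD961 : D ≤ 961 := by
    calc D ≤ 31 ^ 2 := Nat.pow_le_pow_left hA.2.2 2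
      _ = 961 := by norm_num
  have h1 : 1 ≤ b ^ D := Nat.one_le_pow _ _ (by omega)
  have hc' : ((SS b k A).card : ℝ) * ((b : ℝ) ^ D) ^ s ≤ ((b : ℝ) ^ D - 1) ^ s * b ^ k := by
    have : (((SS b k A).card * (b ^ D) ^ s : ℕ) : ℝ) ≤ (((b ^ D - 1) ^ s * b ^ k : ℕ) : ℝ) := by
      exact_mod_cast hc
    push_cast [Nat.cast_sub h1] at this
    exact this
  have hbD : (0 : ℝ) < (b : ℝ) ^ D := by positivity
  have hbD1 : (1 : ℝ) ≤ (b : ℝ) ^ D := one_le_pow₀ (by linarith)
  have h2 : ((SS b k A).card : ℝ) ≤ b ^ k * (1 - 1 / (b : ℝ) ^ D) ^ s := by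
    have h3 : (1 - 1 / (b : ℝ) ^ D) ^ s = ((b : ℝ) ^ D - 1) ^ s / ((b : ℝ) ^ D) ^ s := by
      rw [← div_pow]
      congr 1
      field_simp
    rw [h3, mul_div_assoc', le_div_iff₀ (by positivity)]
    linarith
  refine h2.trans ?_
  apply mul_le_mul_of_nonneg_left _ (by positivity)
  have h961 : (1 : ℝ) / (b : ℝ) ^ 961 ≤ 1 / (b : ℝ) ^ D := by
    apply one_div_le_one_div_of_le hbD
    exact pow_le_pow_right₀ (by linarith) hD961
  have h0 : 0 ≤ 1 - 1 / (b : ℝ) ^ D := by
    rw [sub_nonneg, div_le_one hbD]; exact hbD1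
  have hsk : k / 31 ^ 4 ≤ s := by
    apply Nat.div_le_of_le_mul
    refine hs.trans (Nat.mul_le_mul_right _ ?_)
    exact Nat.pow_le_pow_left hA.2.2 4
  calc (1 - 1 / (b : ℝ) ^ D) ^ s ≤ (1 - 1 / (b : ℝ) ^ D) ^ (k / 31 ^ 4) := by
        apply pow_le_pow_of_le_one h0 _ hsk
        have : 0 < 1 / (b : ℝ) ^ D := by positivity
        linarith
    _ ≤ _ := by
        apply pow_le_pow_left₀ h0
        linarith

lemma SA_card (k : ℕ) : (SA k).card ≤ 32 * (k + 1) ^ 31 := by
  have h1 : SA k ⊆ (range 32).biUnion (fun i => powersetCard i (range k)) := by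
    intro A hA
    rw [SA, mem_filter, mem_powerset] at hA
    rw [mem_biUnion]
    exact ⟨A.card, mem_range.2 (by omega), mem_powersetCard.2 ⟨hA.1, rfl⟩⟩
  refine (card_le_card h1).trans (card_biUnion_le.trans ?_)
  have h2 : ∀ i ∈ range 32, (powersetCard i (range k)).card ≤ (k + 1) ^ 31 := by
    intro i hi
    rw [mem_range] at hi
    rw [card_powersetCard, card_range]
    calc k.choose i ≤ k ^ i := Nat.choose_le_pow k i
      _ ≤ (k + 1) ^ i := Nat.pow_le_pow_left (by omega) i
      _ ≤ (k + 1) ^ 31 := Nat.pow_le_pow_right (by omega) (by omega)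
  refine (sum_le_sum h2).trans ?_
  rw [sum_const, card_range, smul_eq_mul]

lemma IsMul.symm {b n x y : ℕ} (h : IsMul b n x y) : IsMul b n y x := by
  intro m
  rw [h m]
  apply le_antisymm
  · apply Finset.sup_le
    intro i hi
    rw [mem_range] at hi
    have h1 : min (dg b x i) (dg b y (m - i)) = min (dg b y (m - i)) (dg b x (m - (m - i))) := by
      rw [min_comm]; congr 2; omega
    rw [h1]
    exact le_sup (f := fun i => min (dg b y i) (dg b x (m - i))) (mem_range.2 (by omega))
  · apply Finset.sup_le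
    intro i hi
    rw [mem_range] at hi
    have h1 : min (dg b y i) (dg b x (m - i)) = min (dg b x (m - i)) (dg b y (m - (m - i))) := by
      rw [min_comm]; congr 2; omega
    rw [h1]
    exact le_sup (f := fun i => min (dg b x i) (dg b y (m - i))) (mem_range.2 (by omega))

/-- the cover -/
noncomputable def Cov (b k : ℕ) : Finset ℕ :=
  ((range (b ^ k)).filter (fun n => ∀ m < k, dg b n m ≠ b - 1)) ∪
  (((Ico 1 k).filter (fun s => 2 * s ≤ k - 1)).biUnion
    (fun s => Few b k (Lw k s) ∪ Few b k (Uw k s) ∪ T3 b k s)) ∪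
  ((SA k).biUnion (fun A => SS b k A))

lemma dg_le (b n m : ℕ) : dg b n m ≤ n := (Nat.mod_le _ _).trans (Nat.div_le_self _ _)

lemma dg_log {b x : ℕ} (hb : 2 ≤ b) (hx : x ≠ 0) : dg b x (Nat.log b x) ≠ 0 := by
  have h1 : b ^ Nat.log b x ≤ x := Nat.pow_log_le_self b hx
  have h2 : x < b ^ (Nat.log b x + 1) := Nat.lt_pow_succ_log_self (by omega) x
  unfold dg
  have h3 : 1 ≤ x / b ^ Nat.log b x := (Nat.one_le_div_iff (Nat.pow_pos (by omega))).2 h1
  have h4 : x / b ^ Nat.log b x < b := by
    apply Nat.div_lt_of_lt_mul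
    rw [← pow_succ]; exact h2
  rw [Nat.mod_eq_of_lt h4]
  omega

lemma dg_above {b x i : ℕ} (hb : 2 ≤ b) (hi : dg b x i ≠ 0) : i ≤ Nat.log b x := by
  by_contra h
  apply hi
  exact dg_zero_of_lt (by omega) (Nat.lt_pow_succ_log_self (by omega) x) (by omega)

lemma cover_aux {b k n x y : ℕ} (hb : 2 ≤ b) (hk : 1 ≤ k) (hn : n < b ^ k) (hn1 : b ^ (k - 1) ≤ n)
    (h0 : dg b n 0 ≠ 0) (hmul : IsMul b n x y) (hx : b ≤ x) (hy : b ≤ y)
    (hst : Nat.log b x ≤ Nat.log b y) : n ∈ Cov b k := by
  classical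
  set s := Nat.log b x with hs
  set t := Nat.log b y with ht
  have hs1 : 1 ≤ s := by
    rw [hs]
    apply Nat.le_log_of_pow_le (by omega)
    simpa using hx
  have hxs : dg b x s ≠ 0 := dg_log hb (by omega)
  have hyt : dg b y t ≠ 0 := dg_log hb (by omega)
  have hsum : s + t = k - 1 := by
    apply le_antisymm
    · have h1 := hmul.ge (m := s + t) (i := s) (by omega)
      have e : s + t - s = t := by omega
      rw [e] at h1
      by_contra hcon
      have h2 : dg b n (s + t) = 0 := dg_zero_of_lt (by omega) hn (by omega)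
      rw [h2] at h1
      have : min (dg b x s) (dg b y t) = 0 := by omega
      rcases Nat.min_eq_zero_iff.1 this with h | h
      · exact hxs h
      · exact hyt h
    · have hn0 : n ≠ 0 := by
        have : 0 < b ^ (k - 1) := Nat.pow_pos (by omega)
        omega
      have hlog : Nat.log b n = k - 1 := by
        rw [Nat.log_eq_iff (Or.inr ⟨by omega, hn0⟩)]
        exact ⟨hn1, by rwa [Nat.sub_add_cancel hk]⟩
      have h1 : dg b n (k - 1) ≠ 0 := by
        rw [← hlog]; exact dg_log hb hn0
      obtain ⟨i, hi, h2, h3⟩ := hmul.exists h1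
      have h4 := dg_above hb h2
      have h5 := dg_above hb h3
      omega
  have hxlt : x < b ^ (s + 1) := Nat.lt_pow_succ_log_self (by omega) x
  have hylt : y < b ^ (k - s) := by
    have : k - s = t + 1 := by omega
    rw [this]
    exact Nat.lt_pow_succ_log_self (by omega) y
  have hmems : s ∈ (Ico 1 k).filter (fun s => 2 * s ≤ k - 1) := by
    rw [mem_filter, mem_Ico]
    omega
  have h0A : 0 ∈ supp b s x := by
    obtain ⟨i, hi, h2, _⟩ := hmul.exists h0
    have : i = 0 := by omega
    rw [this] at h2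
    exact mem_filter.2 ⟨mem_range.2 (by omega), h2⟩
  have hsA : s ∈ supp b s x := mem_filter.2 ⟨mem_range.2 (by omega), hxs⟩
  rw [Cov, mem_union, mem_union]
  by_cases hbig : 32 ≤ (supp b s x).card
  · left; right
    rw [mem_biUnion]
    refine ⟨s, hmems, ?_⟩
    rw [mem_union, mem_union]
    by_cases hL : n ∈ Few b k (Lw k s)
    · exact Or.inl (Or.inl hL)
    · by_cases hU : n ∈ Few b k (Uw k s)
      · exact Or.inl (Or.inr hU)
      · right
        exact mem_filter.2 ⟨mem_range.2 hn, x, y, hxlt, hylt, hbig, hmul, hL, hU⟩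
  · right
    rw [mem_biUnion]
    refine ⟨supp b s x, ?_, ?_⟩
    · rw [SA, mem_filter, mem_powerset]
      refine ⟨?_, ?_, by omega⟩
      · intro i hi
        rw [supp, mem_filter, mem_range] at hi
        rw [mem_range]
        omega
      · have h2 : ({0, s} : Finset ℕ) ⊆ supp b s x := by
          intro i hi
          rw [mem_insert, mem_singleton] at hi
          rcases hi with rfl | rfl
          · exact h0A
          · exact hsA
        have h3 : ({0, s} : Finset ℕ).card = 2 := card_pair (by omega)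
        rw [← h3]
        exact card_le_card h2
    · rw [SS, mem_filter, mem_range]
      refine ⟨hn, ?_⟩
      intro m hm hdm
      obtain ⟨i, hi, h2, h3⟩ := hmul.exists hdm
      have hiA : i ∈ supp b s x :=
        mem_filter.2 ⟨mem_range.2 (Nat.lt_succ_of_le (dg_above hb h2)), h2⟩
      obtain ⟨a, haA, hai⟩ : ∃ a ∈ supp b s x, a ≠ i := by
        by_cases hi0 : i = 0
        · exact ⟨s, hsA, by omega⟩
        · exact ⟨0, h0A, fun h => hi0 h.symm⟩
      have ha2 := (mem_filter.1 haA).2
      have hd : dg b n (m - i + a) ≠ 0 := by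
        have h5 := hmul.ge (m := m - i + a) (i := a) (by omega)
        have e : m - i + a - a = m - i := by omega
        rw [e] at h5
        intro h6
        rw [h6] at h5
        have : min (dg b x a) (dg b y (m - i)) = 0 := by omega
        rcases Nat.min_eq_zero_iff.1 this with h | h
        · exact ha2 h
        · exact h3 h
      refine ⟨m - i + a, ?_, by omega, hd, i, hiA, a, haA, by omega⟩
      by_contra hcon
      exact hd (dg_zero_of_lt (by omega) hn (by omega))

lemma cover {b k n : ℕ} (hb : 2 ≤ b) (hk : 1 ≤ k) (hn : n < b ^ k) (hn1 : b ^ (k - 1) ≤ n)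
    (h0 : dg b n 0 ≠ 0) {x y : ℕ} (hmul : IsMul b n x y) (hx : x ≠ b - 1) (hy : y ≠ b - 1) :
    n ∈ Cov b k := by
  have aux : ∀ x y, IsMul b n x y → x ≠ b - 1 → x < b → n ∈ Cov b k := by
    intro x y hmul hx hxb
    rw [Cov, mem_union, mem_union]
    left; left
    rw [mem_filter, mem_range]
    refine ⟨hn, ?_⟩
    intro m _
    have h1 : dg b n m ≤ x := by
      rw [hmul m]
      apply Finset.sup_le
      intro i _
      exact (min_le_left _ _).trans (dg_le b x i)
    omega
  by_cases hxb : x < b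
  · exact aux x y hmul hx hxb
  by_cases hyb : y < b
  · exact aux y x hmul.symm hy hyb
  rcases le_total (Nat.log b x) (Nat.log b y) with h | h
  · exact cover_aux hb hk hn hn1 h0 hmul (by omega) (by omega) h
  · exact cover_aux hb hk hn hn1 h0 hmul.symm (by omega) (by omega) h

end Pool.Agent.V11294.LP
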