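import Mathlib
import Pool.Agent.V11294.LP.Cover

set_option autoImplicit false

/-! The asymptotic count. -/

namespace Pool.Agent.V11294.LP

open Finset Filter Topology

lemma pow_mul_tendsto (p q : ℕ) (hq : 1 ≤ q) {r : ℝ} (h0 : 0 ≤ r) (h1 : r < 1) :
    Tendsto (fun k : ℕ => ((k : ℝ) + 1) ^ p * r ^ (k / q)) atTop (𝓝 0) := by
  set r' := max r (1 / 2) with hr'
  have hr0 : 0 < r' := lt_of_lt_of_le (by norm_num) (le_max_right _ _)
  have hr1 : r' < 1 := max_lt h1 (by norm_num)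
  have hrr : r ≤ r' := le_max_left _ _
  have A : Tendsto (fun j : ℕ => (j : ℝ) ^ p * r' ^ j) atTop (𝓝 0) :=
    tendsto_pow_const_mul_const_pow_of_abs_lt_one p (by rw [abs_of_pos hr0]; exact hr1)
  have B : Tendsto (fun j : ℕ => (((j + 1 : ℕ) : ℝ)) ^ p * r' ^ (j + 1)) atTop (𝓝 0) :=
    A.comp (tendsto_add_atTop_nat 1)
  have C : Tendsto (fun k : ℕ => (((k / q + 1 : ℕ) : ℝ)) ^ p * r' ^ (k / q + 1)) atTop (𝓝 0) :=
    B.comp (Nat.tendsto_div_const_atTop (by omega))
  have D : Tendsto (fun k : ℕ => ((q : ℝ) ^ p / r') *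
      ((((k / q + 1 : ℕ) : ℝ)) ^ p * r' ^ (k / q + 1))) atTop (𝓝 0) := by
    have := C.const_mul ((q : ℝ) ^ p / r')
    rwa [mul_zero] at this
  refine squeeze_zero (fun k => by positivity) (fun k => ?_) D
  have h2 : (k : ℝ) + 1 ≤ q * ((k / q + 1 : ℕ) : ℝ) := by
    have : k + 1 ≤ q * (k / q + 1) := Nat.lt_mul_div_succ k (show 0 < q by omega)
    exact_mod_cast this
  calc ((k : ℝ) + 1) ^ p * r ^ (k / q) ≤ (q * ((k / q + 1 : ℕ) : ℝ)) ^ p * r' ^ (k / q) := by
        gcongr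
    _ = _ := by
        rw [mul_pow, pow_succ]
        field_simp

lemma Cov_card {b k : ℕ} (hb : 2 ≤ b) : ((Cov b k).card : ℝ) / b ^ k ≤
    (1 - 1 / (b : ℝ)) ^ k + ((k : ℝ) + 1) * (2 * (1 - 1 / (4 * (b : ℝ) ^ 2)) ^ (k / 5) +
      b * (1 / 2) ^ (k / (2560 * b))) +
      32 * (((k : ℝ) + 1) ^ 31 * (1 - 1 / (b : ℝ) ^ 961) ^ (k / 31 ^ 4)) := by
  classical
  have hbR : (2 : ℝ) ≤ b := by exact_mod_cast hb
  have hbk : (0 : ℝ) < (b : ℝ) ^ k := by positivity
  rw [div_le_iff₀ hbk]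
  have hρ : 0 ≤ 1 - 1 / (4 * (b : ℝ) ^ 2) := by
    rw [sub_nonneg, div_le_one (by positivity)]; nlinarith
  have c1 : (((range (b ^ k)).filter (fun n => ∀ m < k, dg b n m ≠ b - 1)).card : ℝ) ≤
      (1 - 1 / (b : ℝ)) ^ k * b ^ k := by
    have h := no_top (b := b) (by omega) k
    have h' : (((range (b ^ k)).filter (fun n => ∀ m < k, dg b n m ≠ b - 1)).card : ℝ) ≤
      (((b - 1) ^ k : ℕ) : ℝ) := by exact_mod_cast h
    refine h'.trans (le_of_eq ?_)
    rw [← mul_pow]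
    push_cast [Nat.cast_sub (show 1 ≤ b by omega)]
    congr 1
    field_simp
  have c2 : (((((Ico 1 k).filter (fun s => 2 * s ≤ k - 1)).biUnion
    (fun s => Few b k (Lw k s) ∪ Few b k (Uw k s) ∪ T3 b k s)).card : ℕ) : ℝ) ≤
      ((k : ℝ) + 1) * (2 * (1 - 1 / (4 * (b : ℝ) ^ 2)) ^ (k / 5) +
      b * (1 / 2) ^ (k / (2560 * b))) * b ^ k := by
    have h1 : (((((Ico 1 k).filter (fun s => 2 * s ≤ k - 1)).biUnion
      (fun s => Few b k (Lw k s) ∪ Few b k (Uw k s) ∪ T3 b k s)).card : ℕ) : ℝ) ≤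
      ∑ s ∈ (Ico 1 k).filter (fun s => 2 * s ≤ k - 1),
        (((Few b k (Lw k s) ∪ Few b k (Uw k s) ∪ T3 b k s).card : ℕ) : ℝ) := by
      exact_mod_cast card_biUnion_le
    refine h1.trans ?_
    have h2 : ∀ s ∈ (Ico 1 k).filter (fun s => 2 * s ≤ k - 1),
        (((Few b k (Lw k s) ∪ Few b k (Uw k s) ∪ T3 b k s).card : ℕ) : ℝ) ≤
        (2 * (1 - 1 / (4 * (b : ℝ) ^ 2)) ^ (k / 5) +
      b * (1 / 2) ^ (k / (2560 * b))) * b ^ k := by
      intro s hs
      rw [mem_filter, mem_Ico] at hs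
      have hs1 := hs.1.1
      have hs2 := hs.2
      have h3 : (((Few b k (Lw k s) ∪ Few b k (Uw k s) ∪ T3 b k s).card : ℕ) : ℝ) ≤
        (Few b k (Lw k s)).card + (Few b k (Uw k s)).card + (T3 b k s).card := by
        exact_mod_cast (card_union_le _ _).trans (Nat.add_le_add_right (card_union_le _ _) _)
      have e1 := few_bound hb k (Lw k s) (Lw_lt hs1 hs2) (Lw_card hs1 hs2)
      have e2 := few_bound hb k (Uw k s) (Uw_lt hs1 hs2) (Uw_card hs1 hs2)
      have e3 := T3_bound (b := b) hb hs1 hs2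
      rw [pow_succ] at e3
      nlinarith [e1, e2, e3, h3]
    refine (sum_le_card_nsmul _ _ _ h2).trans ?_
    rw [nsmul_eq_mul, mul_assoc]
    have h4 : ((((Ico 1 k).filter (fun s => 2 * s ≤ k - 1)).card : ℕ) : ℝ) ≤ (k : ℝ) + 1 := by
      have : ((Ico 1 k).filter (fun s => 2 * s ≤ k - 1)).card ≤ k + 1 := by
        refine (card_filter_le _ _).trans ?_
        rw [Nat.card_Ico]; omega
      exact_mod_cast this
    gcongr
  have c3 : ((((SA k).biUnion (fun A => SS b k A)).card : ℕ) : ℝ) ≤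
      32 * (((k : ℝ) + 1) ^ 31 * (1 - 1 / (b : ℝ) ^ 961) ^ (k / 31 ^ 4)) * b ^ k := by
    have h1 : ((((SA k).biUnion (fun A => SS b k A)).card : ℕ) : ℝ) ≤
      ∑ A ∈ SA k, (((SS b k A).card : ℕ) : ℝ) := by
      exact_mod_cast card_biUnion_le
    refine h1.trans ?_
    refine (sum_le_card_nsmul _ _ _ (fun A hA => SS_bound hb hA)).trans ?_
    rw [nsmul_eq_mul]
    have h4 : (((SA k).card : ℕ) : ℝ) ≤ 32 * ((k : ℝ) + 1) ^ 31 := by
      exact_mod_cast SA_card k
    have h5 : 0 ≤ 1 - 1 / (b : ℝ) ^ 961 := by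
      rw [sub_nonneg, div_le_one (by positivity)]
      exact one_le_pow₀ (by linarith)
    calc (((SA k).card : ℕ) : ℝ) * (b ^ k * (1 - 1 / (b : ℝ) ^ 961) ^ (k / 31 ^ 4))
        ≤ (32 * ((k : ℝ) + 1) ^ 31) * (b ^ k * (1 - 1 / (b : ℝ) ^ 961) ^ (k / 31 ^ 4)) := by
          apply mul_le_mul_of_nonneg_right h4 (by positivity)
      _ = _ := by ring
  have c4 : (((Cov b k).card : ℕ) : ℝ) ≤
      (((range (b ^ k)).filter (fun n => ∀ m < k, dg b n m ≠ b - 1)).card : ℝ) +
      (((((Ico 1 k).filter (fun s => 2 * s ≤ k - 1)).biUnion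
    (fun s => Few b k (Lw k s) ∪ Few b k (Uw k s) ∪ T3 b k s)).card : ℕ) : ℝ) +
      ((((SA k).biUnion (fun A => SS b k A)).card : ℕ) : ℝ) := by
    rw [Cov]
    exact_mod_cast (card_union_le _ _).trans (Nat.add_le_add_right (card_union_le _ _) _)
  rw [add_mul, add_mul]
  linarith

lemma Cov_tendsto {b : ℕ} (hb : 2 ≤ b) :
    Tendsto (fun k : ℕ => ((Cov b k).card : ℝ) / b ^ k) atTop (𝓝 0) := by
  have hbR : (2 : ℝ) ≤ b := by exact_mod_cast hb
  have hb0 : (0 : ℝ) < b := by linarith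
  have d1 : 0 ≤ 1 - 1 / (b : ℝ) := by
    rw [sub_nonneg, div_le_one hb0]; linarith
  have d1' : 1 - 1 / (b : ℝ) < 1 := by
    have : 0 < 1 / (b : ℝ) := by positivity
    linarith
  have d2 : 0 ≤ 1 - 1 / (4 * (b : ℝ) ^ 2) := by
    rw [sub_nonneg, div_le_one (by positivity)]; nlinarith
  have d2' : 1 - 1 / (4 * (b : ℝ) ^ 2) < 1 := by
    have : 0 < 1 / (4 * (b : ℝ) ^ 2) := by positivity
    linarith
  have d3 : 0 ≤ 1 - 1 / (b : ℝ) ^ 961 := by
    rw [sub_nonneg, div_le_one (by positivity)]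
    exact one_le_pow₀ (by linarith)
  have d3' : 1 - 1 / (b : ℝ) ^ 961 < 1 := by
    have : 0 < 1 / (b : ℝ) ^ 961 := by positivity
    linarith
  have t1 : Tendsto (fun k : ℕ => (1 - 1 / (b : ℝ)) ^ k) atTop (𝓝 0) :=
    tendsto_pow_atTop_nhds_zero_of_lt_one d1 d1'
  have t2 := pow_mul_tendsto 1 5 (by norm_num) d2 d2'
  have t3 := pow_mul_tendsto 1 (2560 * b) (by omega) (show (0 : ℝ) ≤ 1 / 2 by norm_num)
    (by norm_num)
  have t4 := pow_mul_tendsto 31 (31 ^ 4) (by norm_num) d3 d3'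
  have T : Tendsto (fun k : ℕ => (1 - 1 / (b : ℝ)) ^ k +
      (2 * (((k : ℝ) + 1) ^ 1 * (1 - 1 / (4 * (b : ℝ) ^ 2)) ^ (k / 5)) +
      b * (((k : ℝ) + 1) ^ 1 * (1 / 2) ^ (k / (2560 * b)))) +
      32 * (((k : ℝ) + 1) ^ 31 * (1 - 1 / (b : ℝ) ^ 961) ^ (k / 31 ^ 4))) atTop (𝓝 0) := by
    have := (t1.add ((t2.const_mul 2).add (t3.const_mul (b : ℝ)))).add (t4.const_mul 32)
    simpa using this
  refine squeeze_zero (fun k => by positivity) (fun k => ?_) T
  refine (Cov_card hb).trans (le_of_eq ?_)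
  ring

/-- strings of `k` digits with nonzero first and last digit -/
def D (b k : ℕ) : Finset ℕ :=
  (Ico (b ^ (k - 1)) (b ^ k)).filter (fun n => dg b n 0 ≠ 0)

lemma D_card {b k : ℕ} (hb : 2 ≤ b) (hk : 2 ≤ k) :
    (D b k).card = (b - 1) ^ 2 * b ^ (k - 2) := by
  have h1 : D b k = ((Ico (b ^ (k - 2)) (b ^ (k - 1))) ×ˢ (Ico 1 b)).image
      (fun p => b * p.1 + p.2) := by
    ext n
    rw [D, mem_filter, mem_Ico, mem_image]
    constructor
    · rintro ⟨⟨h1, h2⟩, h3⟩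
      refine ⟨(n / b, n % b), ?_, Nat.div_add_mod n b⟩
      rw [mem_product, mem_Ico, mem_Ico]
      simp only [dg, pow_zero, Nat.div_one] at h3
      refine ⟨⟨?_, ?_⟩, by simp only; omega, Nat.mod_lt _ (by omega)⟩
      · simp only
        rw [Nat.le_div_iff_mul_le (by omega), ← pow_succ]
        have : k - 2 + 1 = k - 1 := by omega
        rwa [this]
      · simp only
        apply Nat.div_lt_of_lt_mul
        rw [← pow_succ']
        have : k - 1 + 1 = k := by omega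
        rwa [this]
    · rintro ⟨⟨u, v⟩, h, rfl⟩
      rw [mem_product, mem_Ico, mem_Ico] at h
      obtain ⟨⟨h1, h2⟩, h3, h4⟩ := h
      simp only at h1 h2 h3 h4 ⊢
      refine ⟨⟨?_, ?_⟩, ?_⟩
      · have e : k - 1 = k - 2 + 1 := by omega
        rw [e, pow_succ']
        have := Nat.mul_le_mul_left b h1
        omega
      · have e : k = k - 1 + 1 := by omega
        rw [e, pow_succ']
        have h5 : u + 1 ≤ b ^ (k - 1) := h2
        have := Nat.mul_le_mul_left b h5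
        rw [mul_add, mul_one] at this
        omega
      · simp only [dg, pow_zero, Nat.div_one]
        rw [Nat.mul_add_mod, Nat.mod_eq_of_lt h4]
        omega
  rw [h1, card_image_of_injOn, card_product, Nat.card_Ico, Nat.card_Ico]
  · have e : k - 1 = k - 2 + 1 := by omega
    rw [e, pow_succ]
    have : b ^ (k - 2) * b - b ^ (k - 2) = b ^ (k - 2) * (b - 1) := by
      rw [Nat.mul_sub, mul_one]
    rw [this]
    ring
  · rintro ⟨u, v⟩ h ⟨u', v'⟩ h' heq
    rw [mem_coe, mem_product, mem_Ico, mem_Ico] at h h'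
    simp only at h h' heq
    have hm : (b * u + v) % b = (b * u' + v') % b := by rw [heq]
    rw [Nat.mul_add_mod, Nat.mul_add_mod, Nat.mod_eq_of_lt h.2.2, Nat.mod_eq_of_lt h'.2.2] at hm
    have hu : b * u = b * u' := by omega
    have := Nat.eq_of_mul_eq_mul_left (by omega) hu
    rw [this, hm]

/-- lunar primes with `k` digits -/
def LPr (b k : ℕ) : Set ℕ := {n : ℕ | b ^ (k - 1) ≤ n ∧ n < b ^ k ∧ n ≠ b - 1 ∧
              ∀ a c : ℕ,
                (∀ m : ℕ, n / b ^ m % b =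
                  (Finset.range (m + 1)).sup
                    (fun i => min (a / b ^ i % b) (c / b ^ (m - i) % b))) →
                a = b - 1 ∨ c = b - 1}

/-- strings with last digit zero factor -/
lemma shift_mul {b n : ℕ} (hb : 2 ≤ b) (h0 : dg b n 0 = 0) : IsMul b n ((b - 1) * b) (n / b) := by
  intro m
  have hd1 : dg b ((b - 1) * b) 1 = b - 1 := by
    unfold dg
    rw [pow_one, Nat.mul_div_cancel _ (by omega), Nat.mod_eq_of_lt (by omega)]
  have hd0 : ∀ i, i ≠ 1 → dg b ((b - 1) * b) i = 0 := by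
    intro i hi
    rcases Nat.lt_or_gt_of_ne hi with h | h
    · have : i = 0 := by omega
      rw [this]
      simp [dg]
    · apply dg_zero_of_lt (k := 2) (by omega) _ (by omega)
      rw [pow_two]
      exact Nat.mul_lt_mul_of_pos_right (by omega) (by omega)
  rcases Nat.eq_zero_or_pos m with hm | hm
  · rw [hm, h0]
    simp [hd0 0 (by norm_num)]
  · have hshift : dg b n m = dg b (n / b) (m - 1) := by
      unfold dg
      rw [Nat.div_div_eq_div_mul, ← pow_succ']
      congr 3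
      omega
    apply le_antisymm
    · have h := le_sup (s := range (m + 1))
        (f := fun i => min (dg b ((b - 1) * b) i) (dg b (n / b) (m - i)))
        (mem_range.2 (show 1 < m + 1 by omega))
      rw [hd1, ← hshift] at h
      refine le_trans ?_ h
      rw [le_min_iff]
      refine ⟨?_, le_refl _⟩
      have := dg_lt (b := b) (by omega) n m
      omega
    · apply Finset.sup_le
      intro i hi
      by_cases h1 : i = 1
      · rw [h1, ← hshift]; exact min_le_right _ _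
      · rw [hd0 i h1]; simp

lemma sandwich {b k : ℕ} (hb : 2 ≤ b) (hk : 3 ≤ k) :
    LPr b k ⊆ (D b k : Set ℕ) ∧ ((D b k \ Cov b k : Finset ℕ) : Set ℕ) ⊆ LPr b k := by
  classical
  have hbk : b ^ 2 ≤ b ^ (k - 1) := Nat.pow_le_pow_right (by omega) (by omega)
  have hb2 : b ^ 2 = b * b := pow_two b
  constructor
  · rintro n ⟨h1, h2, h3, h4⟩
    rw [mem_coe, D, mem_filter, mem_Ico]
    refine ⟨⟨h1, h2⟩, ?_⟩
    intro h0
    rcases h4 ((b - 1) * b) (n / b) (shift_mul hb h0) with h | h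
    · have : (b - 1) * b ≥ (b - 1) * 2 := Nat.mul_le_mul_left _ hb
      omega
    · have : b ≤ n / b := by
        rw [Nat.le_div_iff_mul_le (by omega)]
        omega
      omega
  · intro n hn
    rw [mem_coe, Finset.mem_sdiff, D, mem_filter, mem_Ico] at hn
    obtain ⟨⟨⟨h1, h2⟩, h3⟩, h4⟩ := hn
    refine ⟨h1, h2, ?_, ?_⟩
    · have : b * 2 ≤ b * b := Nat.mul_le_mul_left _ hb
      omega
    · intro a c hac
      by_contra hcon
      rw [not_or] at hcon
      exact h4 (cover hb (by omega) h2 h1 h3 hac hcon.1 hcon.2)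

theorem main (b : ℕ) (hb : 2 ≤ b) :
    Asymptotics.IsEquivalent atTop (fun k : ℕ => ((LPr b k).ncard : ℝ))
        (fun k : ℕ => ((b : ℝ) - 1) ^ 2 * (b : ℝ) ^ ((k : ℤ) - 2)) := by
  classical
  have hbR : (2 : ℝ) ≤ b := by exact_mod_cast hb
  have hb0 : (0 : ℝ) < b := by linarith
  have hb1 : (0 : ℝ) < (b : ℝ) - 1 := by linarith
  rw [Asymptotics.isEquivalent_iff_tendsto_one
    (Eventually.of_forall fun k => by positivity)]
  have hC := (Cov_tendsto hb).const_mul ((b : ℝ) ^ 2 / ((b : ℝ) - 1) ^ 2)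
  rw [mul_zero] at hC
  have hlow : Tendsto (fun k : ℕ => 1 - (b : ℝ) ^ 2 / ((b : ℝ) - 1) ^ 2 *
      (((Cov b k).card : ℝ) / b ^ k)) atTop (𝓝 1) := by
    have := hC.const_sub 1
    rwa [sub_zero] at this
  refine tendsto_of_tendsto_of_tendsto_of_le_of_le' hlow tendsto_const_nhds ?_ ?_
  · filter_upwards [eventually_ge_atTop 3] with k hk
    obtain ⟨h1, h2⟩ := sandwich hb hk
    have hz : (b : ℝ) ^ ((k : ℤ) - 2) = (b : ℝ) ^ (k - 2) := by
      rw [← zpow_natCast]
      congr 1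
      push_cast [Nat.cast_sub (show 2 ≤ k by omega)]
      ring
    have hbk : (b : ℝ) ^ k = b ^ (k - 2) * b ^ 2 := by
      rw [← pow_add]; congr 1; omega
    simp only [Pi.div_apply]
    rw [hz, le_div_iff₀ (by positivity)]
    have hfin : (LPr b k).Finite := (finite_toSet _).subset h1
    have h3 : ((D b k \ Cov b k).card : ℝ) ≤ ((LPr b k).ncard : ℝ) := by
      have := Set.ncard_le_ncard h2 hfin
      rw [Set.ncard_coe_finset] at this
      exact_mod_cast this
    have h4 : ((D b k).card : ℝ) - (Cov b k).card ≤ ((D b k \ Cov b k).card : ℝ) := by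
      have := le_card_sdiff (Cov b k) (D b k)
      have h5 : (D b k).card ≤ (D b k \ Cov b k).card + (Cov b k).card := by omega
      have h6 : ((D b k).card : ℝ) ≤ (D b k \ Cov b k).card + (Cov b k).card := by
        exact_mod_cast h5
      linarith
    have h5 : ((D b k).card : ℝ) = ((b : ℝ) - 1) ^ 2 * b ^ (k - 2) := by
      rw [D_card hb (by omega)]
      push_cast [Nat.cast_sub (show 1 ≤ b by omega)]
      ring
    have h6 : (1 - (b : ℝ) ^ 2 / ((b : ℝ) - 1) ^ 2 * (((Cov b k).card : ℝ) / b ^ k)) *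
        (((b : ℝ) - 1) ^ 2 * b ^ (k - 2)) = ((b : ℝ) - 1) ^ 2 * b ^ (k - 2) - (Cov b k).card := by
      rw [hbk]
      field_simp
    rw [h6]
    linarith
  · filter_upwards [eventually_ge_atTop 3] with k hk
    obtain ⟨h1, h2⟩ := sandwich hb hk
    have hz : (b : ℝ) ^ ((k : ℤ) - 2) = (b : ℝ) ^ (k - 2) := by
      rw [← zpow_natCast]
      congr 1
      push_cast [Nat.cast_sub (show 2 ≤ k by omega)]
      ring
    simp only [Pi.div_apply]
    rw [hz, div_le_one (by positivity)]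
    have h3 : ((LPr b k).ncard : ℝ) ≤ ((D b k).card : ℝ) := by
      have := Set.ncard_le_ncard h1 (finite_toSet _)
      rw [Set.ncard_coe_finset] at this
      exact_mod_cast this
    have h5 : ((D b k).card : ℝ) = ((b : ℝ) - 1) ^ 2 * b ^ (k - 2) := by
      rw [D_card hb (by omega)]
      push_cast [Nat.cast_sub (show 1 ≤ b by omega)]
      ring
    linarith

end Pool.Agent.V11294.LP
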